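import Pool.Agent.PFC.StmtsB1

/-!
Squad PFC, row CNV (helper25): change of the Frobenius system in the Higman identity of the
complement.
-/

namespace Pool.Agent.PFC.B1.H25CNV

/-- the Casimir identity (also row CAS) -/
theorem cas : CasStmt := by
  intro R A I X _ _ _ _ _ _ c B x
  calc ∑ i, B (x * c.b i) (c.b' i)
      = ∑ i, ∑ k, c.lam (c.b' k * x * c.b i) • B (c.b k) (c.b' i) := by
        refine Finset.sum_congr rfl fun i _ => ?_
        conv_lhs => rw [← c.h1 (x * c.b i)]
        rw [map_sum, LinearMap.sum_apply]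
        refine Finset.sum_congr rfl fun k _ => ?_
        rw [map_smul, LinearMap.smul_apply, mul_assoc]
    _ = ∑ k, B (c.b k) (∑ i, c.lam (c.b' k * x * c.b i) • c.b' i) := by
        rw [Finset.sum_comm]
        refine Finset.sum_congr rfl fun k _ => ?_
        rw [map_sum]
        refine Finset.sum_congr rfl fun i _ => ?_
        rw [map_smul]
    _ = ∑ i, B (c.b i) (c.b' i * x) := by
        refine Finset.sum_congr rfl fun k _ => ?_
        rw [c.h2]

theorem cnv : CnvStmt := by
  intro F Γ Γ0 A I I0 _ _ _ _ _ _ _ _ _ c c0 f sp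
  have hq : ∀ (r : PowerSeries F) (γ : Γ),
      f.q (r • γ) = PowerSeries.constantCoeff r • f.q γ := by
    intro r γ
    rw [Algebra.smul_def, map_mul, f.sc, ← Algebra.smul_def]
  have hwd : ∀ γ, f.q γ = 0 → PowerSeries.constantCoeff (c.lam γ) = 0 := by
    intro γ h
    obtain ⟨y, rfl⟩ := f.ker γ h
    rw [map_smul, smul_eq_mul, map_mul, PowerSeries.constantCoeff_X, zero_mul]
  have key : ∀ γ γ', f.q γ = f.q γ' →
      PowerSeries.constantCoeff (c.lam γ) = PowerSeries.constantCoeff (c.lam γ') := by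
    intro γ γ' h
    have h2 := hwd (γ - γ') (by rw [map_sub, h, sub_self])
    rw [map_sub, map_sub, sub_eq_zero] at h2
    exact h2
  obtain ⟨lb, hlb⟩ : ∃ lb : Γ0 →ₗ[F] F,
      ∀ γ, lb (f.q γ) = PowerSeries.constantCoeff (c.lam γ) := by
    have hs : ∀ y, f.q (Function.surjInv f.surj y) = y := Function.surjInv_eq f.surj
    refine ⟨{ toFun := fun y => PowerSeries.constantCoeff (c.lam (Function.surjInv f.surj y)),
              map_add' := ?_, map_smul' := ?_ }, fun γ => key _ _ (hs _)⟩
    · intro x y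
      rw [← map_add, ← map_add]
      exact key _ _ (by rw [hs, map_add, hs, hs])
    · intro r x
      have h := key (Function.surjInv f.surj (r • x))
        ((PowerSeries.C r : PowerSeries F) • Function.surjInv f.surj x)
        (by rw [hs, hq, hs, PowerSeries.constantCoeff_C])
      rw [h, map_smul, smul_eq_mul, map_mul, PowerSeries.constantCoeff_C]
      rfl
  have h1 : ∀ y : Γ0, ∑ i, lb (f.q (c.b' i) * y) • f.q (c.b i) = y := by
    intro y
    obtain ⟨γ, rfl⟩ := f.surj y
    conv_rhs => rw [← c.h1 γ]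
    rw [map_sum]
    refine Finset.sum_congr rfl fun i _ => ?_
    rw [hq, ← map_mul, hlb]
  have h2 : ∀ y : Γ0, ∑ i, lb (y * f.q (c.b i)) • f.q (c.b' i) = y := by
    intro y
    obtain ⟨γ, rfl⟩ := f.surj y
    conv_rhs => rw [← c.h2 γ]
    rw [map_sum]
    refine Finset.sum_congr rfl fun i _ => ?_
    rw [hq, ← map_mul, hlb]
  have hL : ∀ Ψ : Γ0 →ₗ[F] Γ0 →ₗ[F] A,
      ∑ i, ∑ g, lb (c0.b g) • Ψ (f.q (c.b i)) (c0.b' g * f.q (c.b' i)) =
        ∑ g, Ψ (c0.b g) (c0.b' g) := by
    intro Ψ
    have e1 : ∀ i, ∑ g, lb (c0.b g) • Ψ (f.q (c.b i)) (c0.b' g * f.q (c.b' i)) =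
        ∑ g, lb (f.q (c.b' i) * c0.b g) • Ψ (f.q (c.b i)) (c0.b' g) := by
      intro i
      have h := cas F Γ0 I0 A c0
        (LinearMap.mk₂ F (fun u v => lb u • Ψ (f.q (c.b i)) v)
          (fun u u' v => by simp only [map_add, add_smul])
          (fun r u v => by simp only [map_smul, smul_assoc])
          (fun u v v' => by simp only [map_add, smul_add])
          (fun r u v => by simp only [map_smul, smul_comm r])) (f.q (c.b' i))
      simp only [LinearMap.mk₂_apply] at h
      exact h.symm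
    simp_rw [e1]
    rw [Finset.sum_comm]
    refine Finset.sum_congr rfl fun g _ => ?_
    conv_rhs => rw [← h1 (c0.b g)]
    rw [map_sum, LinearMap.sum_apply]
    refine Finset.sum_congr rfl fun i _ => ?_
    rw [map_smul, LinearMap.smul_apply]
  have hR : ∀ Ψ : Γ0 →ₗ[F] Γ0 →ₗ[F] A,
      ∑ l, ∑ g, lb (c0.b' g) • Ψ (f.q (c.b l) * c0.b g) (f.q (c.b' l)) =
        ∑ g, Ψ (c0.b g) (c0.b' g) := by
    intro Ψ
    have e1 : ∀ l, ∑ g, lb (c0.b' g) • Ψ (f.q (c.b l) * c0.b g) (f.q (c.b' l)) =
        ∑ g, lb (c0.b' g * f.q (c.b l)) • Ψ (c0.b g) (f.q (c.b' l)) := by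
      intro l
      have h := cas F Γ0 I0 A c0
        (LinearMap.mk₂ F (fun u v => lb v • Ψ u (f.q (c.b' l)))
          (fun u u' v => by simp only [map_add, LinearMap.add_apply, smul_add])
          (fun r u v => by simp only [map_smul, LinearMap.smul_apply, smul_comm r])
          (fun u v v' => by simp only [map_add, add_smul])
          (fun r u v => by simp only [map_smul, smul_assoc])) (f.q (c.b l))
      simp only [LinearMap.mk₂_apply] at h
      exact h
    simp_rw [e1]
    rw [Finset.sum_comm]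
    refine Finset.sum_congr rfl fun g _ => ?_
    conv_rhs => rw [← h2 (c0.b' g)]
    rw [map_sum]
    refine Finset.sum_congr rfl fun i _ => ?_
    rw [map_smul]
  refine ⟨∑ g, ∑ h, (lb (c0.b g) * lb (c0.b' h)) •
    (sp.a ∘ₗ LinearMap.mulLeft F (sp.j (c0.b' g)) ∘ₗ LinearMap.mulRight F (sp.j (c0.b h))),
    fun x => ?_⟩
  have ha : ∀ y, (∑ g, ∑ h, (lb (c0.b g) * lb (c0.b' h)) •
      (sp.a ∘ₗ LinearMap.mulLeft F (sp.j (c0.b' g)) ∘ₗ LinearMap.mulRight F (sp.j (c0.b h)))) y =
      ∑ h, ∑ g, lb (c0.b' h) • lb (c0.b g) • sp.a (sp.j (c0.b' g) * (y * sp.j (c0.b h))) := by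
    intro y
    rw [Finset.sum_comm]
    simp only [LinearMap.sum_apply, LinearMap.smul_apply, LinearMap.comp_apply,
      LinearMap.mulLeft_apply, LinearMap.mulRight_apply, smul_smul, mul_comm (lb (c0.b' _))]
  calc ∑ i, ∑ l, sp.j (f.q (c.b i)) *
        (∑ g, ∑ h, (lb (c0.b g) * lb (c0.b' h)) •
      (sp.a ∘ₗ LinearMap.mulLeft F (sp.j (c0.b' g)) ∘ₗ LinearMap.mulRight F (sp.j (c0.b h))))
        (sp.j (f.q (c.b' i)) * x * sp.j (f.q (c.b l))) * sp.j (f.q (c.b' l))
      = ∑ l, ∑ h, lb (c0.b' h) • ∑ i, ∑ g, lb (c0.b g) •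
        (sp.j (f.q (c.b i)) * sp.a (sp.j (c0.b' g * f.q (c.b' i)) * x *
          sp.j (f.q (c.b l) * c0.b h)) * sp.j (f.q (c.b' l))) := by
        rw [Finset.sum_comm]
        refine Finset.sum_congr rfl fun l _ => ?_
        simp only [ha, Finset.mul_sum, Finset.sum_mul, Finset.smul_sum, mul_smul_comm,
          smul_mul_assoc, map_mul, mul_assoc]
        rw [Finset.sum_comm]
    _ = ∑ l, ∑ h, lb (c0.b' h) • ∑ g,
        (sp.j (c0.b g) * sp.a (sp.j (c0.b' g) * x *
          sp.j (f.q (c.b l) * c0.b h)) * sp.j (f.q (c.b' l))) := by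
        refine Finset.sum_congr rfl fun l _ => Finset.sum_congr rfl fun h _ => ?_
        have e := hL (LinearMap.mk₂ F (fun u v => sp.j u * sp.a (sp.j v * x *
          sp.j (f.q (c.b l) * c0.b h)) * sp.j (f.q (c.b' l)))
          (fun u u' v => by simp only [map_add, add_mul])
          (fun r u v => by simp only [map_smul, smul_mul_assoc])
          (fun u v v' => by simp only [map_add, add_mul, mul_add])
          (fun r u v => by simp only [map_smul, smul_mul_assoc, mul_smul_comm]))
        simp only [LinearMap.mk₂_apply] at e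
        rw [e]
    _ = ∑ g, ∑ l, ∑ h, lb (c0.b' h) •
        (sp.j (c0.b g) * sp.a (sp.j (c0.b' g) * x *
          sp.j (f.q (c.b l) * c0.b h)) * sp.j (f.q (c.b' l))) := by
        simp only [Finset.smul_sum]
        exact (Finset.sum_congr rfl fun l _ => Finset.sum_comm).trans Finset.sum_comm
    _ = ∑ g, ∑ h, sp.j (c0.b g) * sp.a (sp.j (c0.b' g) * x * sp.j (c0.b h)) *
          sp.j (c0.b' h) := by
        refine Finset.sum_congr rfl fun g _ => ?_
        have e := hR (LinearMap.mk₂ F (fun u v => sp.j (c0.b g) * sp.a (sp.j (c0.b' g) * x *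
          sp.j u) * sp.j v)
          (fun u u' v => by simp only [map_add, add_mul, mul_add])
          (fun r u v => by simp only [map_smul, smul_mul_assoc, mul_smul_comm])
          (fun u v v' => by simp only [map_add, mul_add])
          (fun r u v => by simp only [map_smul, mul_smul_comm]))
        simp only [LinearMap.mk₂_apply] at e
        exact e
    _ = x - sp.j (sp.pr x) := sp.a_id x

end Pool.Agent.PFC.B1.H25CNV
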